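import Mathlib

/-!
# Vertex-isoperimetry of order ideals in grids, and `ν`-chains
-/

set_option autoImplicit false

namespace Q151.NU

open Finset

/-- The cells `(i, j)`, `1 ≤ i ≤ m`, `1 ≤ j ≤ n`, of the `m × n` grid. -/
def cells (m n : ℕ) : Finset (ℕ × ℕ) := Icc 1 m ×ˢ Icc 1 n

/-- Two cells are adjacent if `|i - i'| + |j - j'| = 1`. -/
def Adj (p q : ℕ × ℕ) : Prop :=
  ((p.1 : ℤ) - q.1).natAbs + ((p.2 : ℤ) - q.2).natAbs = 1

/-- An order ideal of the grid: a down-set for the coordinatewise order. -/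
def IsIdeal (m n : ℕ) (A : Finset (ℕ × ℕ)) : Prop :=
  A ⊆ cells m n ∧ ∀ p ∈ A, ∀ q ∈ cells m n, q.1 ≤ p.1 → q.2 ≤ p.2 → q ∈ A

open Classical in
/-- The closed neighbourhood of a set of cells. -/
noncomputable def nbhd (m n : ℕ) (A : Finset (ℕ × ℕ)) : Finset (ℕ × ℕ) :=
  (cells m n).filter fun p => p ∈ A ∨ ∃ q ∈ A, Adj p q

/-- `ν(s)`: the least number of cells of the closed neighbourhood of an order ideal with `s`
cells. -/
noncomputable def nu (m n s : ℕ) : ℕ :=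
  sInf {t : ℕ | ∃ A, IsIdeal m n A ∧ A.card = s ∧ (nbhd m n A).card = t}

/-- The sequence `c_0, …, c_L` is a `ν`-chain on the `m × n` grid. -/
def IsNuChain (m n L : ℕ) (c : ℕ → ℕ) : Prop :=
  (∀ l ≤ L, c l ≤ m * n) ∧ ∀ l < L, nu m n (c l) ≤ c (l + 1)

/-- The weight of the sequence `c_0, …, c_L`. -/
def weight (m n L : ℕ) (c : ℕ → ℕ) : ℕ := ∑ l ∈ range (L + 1), min (c l) (m * n - c l)

/-- The antidiagonal chain: the number of cells with `i + j ≤ l + 2`. -/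
def anti (m n l : ℕ) : ℕ := ((cells m n).filter fun p => p.1 + p.2 ≤ l + 2).card

/-- `D(m, n)`: the weight of the antidiagonal chain `a_0, …, a_{m+n-2}`. -/
def DD (m n : ℕ) : ℕ := weight m n (m + n - 2) (anti m n)

lemma mem_cells {m n : ℕ} {p : ℕ × ℕ} :
    p ∈ cells m n ↔ (1 ≤ p.1 ∧ p.1 ≤ m) ∧ 1 ≤ p.2 ∧ p.2 ≤ n := by
  simp [cells, mem_product]

lemma card_cells (m n : ℕ) : (cells m n).card = m * n := by
  simp [cells, card_product]

end Q151.NU
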