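import Mathlib
import Pool.Agent.Q151.NU.Defs

/-!
# The isoperimetric inequality
-/

set_option autoImplicit false

namespace Q151.NU

open Finset

variable {m n : ℕ} {A : Finset (ℕ × ℕ)}

/-- the boundary -/
noncomputable def bd (m n : ℕ) (A : Finset (ℕ × ℕ)) : Finset (ℕ × ℕ) := nbhd m n A \ A

lemma card_nbhd (hA : IsIdeal m n A) : (nbhd m n A).card = A.card + (bd m n A).card := by
  classical
  have hsub : A ⊆ nbhd m n A := by
    intro p hp
    unfold nbhd
    rw [mem_filter]
    exact ⟨hA.1 hp, Or.inl hp⟩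
  unfold bd
  rw [card_sdiff_of_subset hsub]
  have := card_le_card hsub
  omega

lemma mem_bd {p : ℕ × ℕ} (hp : p ∈ cells m n) (hpA : p ∉ A) {q : ℕ × ℕ} (hq : q ∈ A)
    (h : Adj p q) : p ∈ bd m n A := by
  classical
  unfold bd nbhd
  rw [mem_sdiff, mem_filter]
  exact ⟨⟨hp, Or.inr ⟨q, hq, h⟩⟩, hpA⟩

/-- in a column with a cell inside and a cell outside there is a boundary cell -/
lemma exists_col (hA : IsIdeal m n A) {i j j' : ℕ} (h : (i, j) ∈ A) (h' : (i, j') ∉ A)
    (hj' : j' ≤ n) (hj1 : 1 ≤ j') : ∃ y, j < y ∧ y ≤ j' ∧ (i, y) ∈ bd m n A := by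
  classical
  have hc := mem_cells.1 (hA.1 h)
  simp only at hc
  have hlt : j < j' := by
    by_contra hle
    push Not at hle
    exact h' (hA.2 _ h _ (mem_cells.2 ⟨⟨hc.1.1, hc.1.2⟩, hj1, hj'⟩) le_rfl hle)
  have hex : ∃ y, j < y ∧ (i, y) ∉ A := ⟨j', hlt, h'⟩
  obtain ⟨h1, h2⟩ := Nat.find_spec hex
  have h3 : Nat.find hex ≤ j' := Nat.find_min' hex ⟨hlt, h'⟩
  refine ⟨Nat.find hex, h1, h3, ?_⟩
  have h4 : (i, Nat.find hex - 1) ∈ A := by
    rcases Nat.lt_or_ge j (Nat.find hex - 1) with h5 | h5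
    · by_contra hcon
      exact Nat.find_min hex (m := Nat.find hex - 1) (by omega) ⟨h5, hcon⟩
    · have : Nat.find hex - 1 = j := by omega
      rw [this]
      exact h
  refine mem_bd (mem_cells.2 ⟨⟨hc.1.1, hc.1.2⟩, by omega, by omega⟩) h2 h4 ?_
  unfold Adj
  simp only
  omega

/-- in a row with a cell inside and a cell outside there is a boundary cell -/
lemma exists_row (hA : IsIdeal m n A) {i i' j : ℕ} (h : (i, j) ∈ A) (h' : (i', j) ∉ A)
    (hi' : i' ≤ m) (hi1 : 1 ≤ i') : ∃ x, i < x ∧ x ≤ i' ∧ (x, j) ∈ bd m n A := by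
  classical
  have hc := mem_cells.1 (hA.1 h)
  simp only at hc
  have hlt : i < i' := by
    by_contra hle
    push Not at hle
    exact h' (hA.2 _ h _ (mem_cells.2 ⟨⟨hi1, hi'⟩, hc.2.1, hc.2.2⟩) hle le_rfl)
  have hex : ∃ x, i < x ∧ (x, j) ∉ A := ⟨i', hlt, h'⟩
  obtain ⟨h1, h2⟩ := Nat.find_spec hex
  have h3 : Nat.find hex ≤ i' := Nat.find_min' hex ⟨hlt, h'⟩
  refine ⟨Nat.find hex, h1, h3, ?_⟩
  have h4 : (Nat.find hex - 1, j) ∈ A := by
    rcases Nat.lt_or_ge i (Nat.find hex - 1) with h5 | h5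
    · by_contra hcon
      exact Nat.find_min hex (m := Nat.find hex - 1) (by omega) ⟨h5, hcon⟩
    · have : Nat.find hex - 1 = i := by omega
      rw [this]
      exact h
  refine mem_bd (mem_cells.2 ⟨⟨by omega, by omega⟩, hc.2.1, hc.2.2⟩) h2 h4 ?_
  unfold Adj
  simp only
  omega

/-- the number of pairs with `i, j ≥ 1` and `i + j ≤ b` -/
lemma card_tri (b : ℕ) (s : Finset (ℕ × ℕ)) (hs : ∀ p ∈ s, 1 ≤ p.1 ∧ 1 ≤ p.2 ∧ p.1 + p.2 ≤ b) :
    2 * s.card ≤ b * (b - 1) := by
  classical
  have h1 : s ⊆ (range b).biUnion fun i => (range (b - 1 - i)).image fun j => (i + 1, j + 1) := by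
    intro p hp
    obtain ⟨h1, h2, h3⟩ := hs p hp
    rw [mem_biUnion]
    refine ⟨p.1 - 1, mem_range.2 (by omega), ?_⟩
    rw [mem_image]
    refine ⟨p.2 - 1, mem_range.2 (by omega), ?_⟩
    ext
    · simp only
      omega
    · simp only
      omega
  have h2 : s.card ≤ ∑ i ∈ range b, (b - 1 - i) := by
    refine (card_le_card h1).trans (card_biUnion_le.trans (sum_le_sum fun i _ => ?_))
    refine card_image_le.trans ?_
    rw [card_range]
  rw [sum_range_reflect (fun i => i) b] at h2
  have h3 := Finset.sum_range_id_mul_two b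
  omega

/-- The isoperimetric inequality for order ideals of the grid. -/
theorem iso (hmn : n ≤ m) (hA : IsIdeal m n A) :
    n ≤ (bd m n A).card ∨ 2 * A.card ≤ (bd m n A).card * ((bd m n A).card - 1) ∨
      2 * (m * n - A.card) ≤ (bd m n A).card * ((bd m n A).card + 1) := by
  classical
  rcases Nat.eq_zero_or_pos n with hn | hn
  · left
    omega
  by_cases ha : (m, 1) ∈ A
  · by_cases hb : (1, n) ∈ A
    · -- the complement is small
      right; right
      have key : ∀ p ∈ cells m n \ A, (m + 1 - p.1) + (n + 1 - p.2) ≤ (bd m n A).card + 1 := by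
        intro p hp
        rw [mem_sdiff, mem_cells] at hp
        obtain ⟨⟨⟨hp1, hp2⟩, hp3, hp4⟩, hpA⟩ := hp
        have hup : ∀ q : ℕ × ℕ, p.1 ≤ q.1 → p.2 ≤ q.2 → q ∉ A := fun q h1 h2 hq =>
          hpA (hA.2 q hq p (mem_cells.2 ⟨⟨hp1, hp2⟩, hp3, hp4⟩) h1 h2)
        have hcol : ∀ i : ℕ, p.1 ≤ i → i ≤ m → ∃ y, y ≤ p.2 ∧ (i, y) ∈ bd m n A := by
          intro i h1 h2
          have h3 : (i, 1) ∈ A := hA.2 _ ha _ (mem_cells.2 ⟨⟨by simp only; omega, h2⟩, le_rfl, hn⟩)
            h2 le_rfl
          obtain ⟨y, -, h5, h6⟩ := exists_col hA h3 (hup (i, p.2) h1 le_rfl) hp4 hp3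
          exact ⟨y, h5, h6⟩
        have hrow : ∀ j : ℕ, p.2 ≤ j → j ≤ n → ∃ x, x ≤ p.1 ∧ (x, j) ∈ bd m n A := by
          intro j h1 h2
          have h3 : (1, j) ∈ A := hA.2 _ hb _ (mem_cells.2 ⟨⟨le_rfl, by simp only; omega⟩,
            by simp only; omega, h2⟩) le_rfl h2
          obtain ⟨x, -, h5, h6⟩ := exists_row hA h3 (hup (p.1, j) le_rfl h1) hp2 hp1
          exact ⟨x, h5, h6⟩
        choose! Y hY1 hY2 using hcol
        choose! X hX1 hX2 using hrow
        set S1 := (Icc p.1 m).image fun i => (i, Y i) with hS1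
        set S2 := (Icc p.2 n).image fun j => (X j, j) with hS2
        have c1 : S1.card = m + 1 - p.1 := by
          rw [hS1, card_image_of_injective _ (fun a b h => congrArg Prod.fst h), Nat.card_Icc]
        have c2 : S2.card = n + 1 - p.2 := by
          rw [hS2, card_image_of_injective _ (fun a b h => congrArg Prod.snd h), Nat.card_Icc]
        have c3 : (S1 ∩ S2).card ≤ 1 := by
          rw [card_le_one]
          have key : ∀ q ∈ S1 ∩ S2, q = p := by
            intro q hq
            rw [mem_inter, hS1, hS2, mem_image, mem_image] at hq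
            obtain ⟨⟨i, hi, h1⟩, j, hj, h2⟩ := hq
            rw [mem_Icc] at hi hj
            have e1 := hY1 i hi.1 hi.2
            have e2 := hX1 j hj.1 hj.2
            have f1 : q.1 = i := by rw [← h1]
            have f2 : q.2 = Y i := by rw [← h1]
            have f3 : q.1 = X j := by rw [← h2]
            have f4 : q.2 = j := by rw [← h2]
            ext
            · omega
            · omega
          intro a h1 b h2
          rw [key a h1, key b h2]
        have c4 : S1 ∪ S2 ⊆ bd m n A := by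
          intro q hq
          rw [mem_union, hS1, hS2, mem_image, mem_image] at hq
          rcases hq with ⟨i, hi, rfl⟩ | ⟨j, hj, rfl⟩
          · rw [mem_Icc] at hi
            exact hY2 i hi.1 hi.2
          · rw [mem_Icc] at hj
            exact hX2 j hj.1 hj.2
        have c5 := card_union_add_card_inter S1 S2
        have c6 := card_le_card c4
        omega
      have h1 : (cells m n \ A).card = m * n - A.card := by
        rw [card_sdiff_of_subset hA.1, card_cells]
      set s := (cells m n \ A).image fun p => (m + 1 - p.1, n + 1 - p.2) with hs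
      have h2 : s.card = (cells m n \ A).card := by
        apply card_image_of_injOn
        intro p hp q hq h
        have hp' := mem_cells.1 (mem_sdiff.1 (mem_coe.1 hp)).1
        have hq' := mem_cells.1 (mem_sdiff.1 (mem_coe.1 hq)).1
        simp only [Prod.mk.injEq] at h
        ext
        · omega
        · omega
      have h3 := card_tri ((bd m n A).card + 1) s (by
        intro q hq
        rw [hs, mem_image] at hq
        obtain ⟨p, hp, rfl⟩ := hq
        have hp' := mem_cells.1 (mem_sdiff.1 hp).1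
        have := key p hp
        simp only
        omega)
      rw [h2, h1] at h3
      have h4 : (bd m n A).card + 1 - 1 = (bd m n A).card := by omega
      rw [h4] at h3
      rw [Nat.mul_comm ((bd m n A).card)]
      exact h3
    · -- all columns
      left
      have hcol : ∀ i : ℕ, 1 ≤ i → i ≤ m → ∃ y, (i, y) ∈ bd m n A := by
        intro i h1 h2
        have h3 : (i, 1) ∈ A := hA.2 _ ha _ (mem_cells.2 ⟨⟨h1, h2⟩, le_rfl, hn⟩) h2 le_rfl
        have h4 : (i, n) ∉ A := fun h => hb (hA.2 _ h _ (mem_cells.2 ⟨⟨le_rfl, by simp only; omega⟩,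
          hn, le_rfl⟩) h1 le_rfl)
        obtain ⟨y, -, -, h6⟩ := exists_col hA h3 h4 le_rfl hn
        exact ⟨y, h6⟩
      choose! Y hY using hcol
      have c1 : ((Icc 1 m).image fun i => (i, Y i)).card = m := by
        rw [card_image_of_injective _ (fun a b h => congrArg Prod.fst h), Nat.card_Icc]
        omega
      have c2 : ((Icc 1 m).image fun i => (i, Y i)) ⊆ bd m n A := by
        intro q hq
        rw [mem_image] at hq
        obtain ⟨i, hi, rfl⟩ := hq
        rw [mem_Icc] at hi
        exact hY i hi.1 hi.2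
      have := card_le_card c2
      omega
  · by_cases hb : (1, n) ∈ A
    · -- all rows
      left
      have hm : 1 ≤ m := by omega
      have hrow : ∀ j : ℕ, 1 ≤ j → j ≤ n → ∃ x, (x, j) ∈ bd m n A := by
        intro j h1 h2
        have h3 : (1, j) ∈ A := hA.2 _ hb _ (mem_cells.2 ⟨⟨le_rfl, hm⟩, h1, h2⟩) le_rfl h2
        have h4 : (m, j) ∉ A := fun h => ha (hA.2 _ h _ (mem_cells.2 ⟨⟨hm, le_rfl⟩, le_rfl, hn⟩)
          le_rfl h1)
        obtain ⟨x, -, -, h6⟩ := exists_row hA h3 h4 le_rfl hm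
        exact ⟨x, h6⟩
      choose! X hX using hrow
      have c1 : ((Icc 1 n).image fun j => (X j, j)).card = n := by
        rw [card_image_of_injective _ (fun a b h => congrArg Prod.snd h), Nat.card_Icc]
        omega
      have c2 : ((Icc 1 n).image fun j => (X j, j)) ⊆ bd m n A := by
        intro q hq
        rw [mem_image] at hq
        obtain ⟨j, hj, rfl⟩ := hq
        rw [mem_Icc] at hj
        exact hX j hj.1 hj.2
      have := card_le_card c2
      omega
    · -- the ideal is small
      right; left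
      apply card_tri
      intro p hp
      have hc := mem_cells.1 (hA.1 hp)
      refine ⟨hc.1.1, hc.2.1, ?_⟩
      have hcol : ∀ i : ℕ, 1 ≤ i → i ≤ p.1 → ∃ y, p.2 < y ∧ (i, y) ∈ bd m n A := by
        intro i h1 h2
        have h3 : (i, p.2) ∈ A := hA.2 _ hp _ (mem_cells.2 ⟨⟨h1, h2.trans hc.1.2⟩, hc.2.1, hc.2.2⟩)
          h2 le_rfl
        have h4 : (i, n) ∉ A := fun h => hb (hA.2 _ h _ (mem_cells.2 ⟨⟨le_rfl, by simp only; omega⟩,
          hn, le_rfl⟩) h1 le_rfl)
        obtain ⟨y, h5, -, h6⟩ := exists_col hA h3 h4 le_rfl hn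
        exact ⟨y, h5, h6⟩
      have hm : 1 ≤ m := by omega
      have hrow : ∀ j : ℕ, 1 ≤ j → j ≤ p.2 → ∃ x, p.1 < x ∧ (x, j) ∈ bd m n A := by
        intro j h1 h2
        have h3 : (p.1, j) ∈ A := hA.2 _ hp _ (mem_cells.2 ⟨⟨hc.1.1, hc.1.2⟩, h1, h2.trans hc.2.2⟩)
          le_rfl h2
        have h4 : (m, j) ∉ A := fun h => ha (hA.2 _ h _ (mem_cells.2 ⟨⟨hm, le_rfl⟩, le_rfl, hn⟩)
          le_rfl h1)
        obtain ⟨x, h5, -, h6⟩ := exists_row hA h3 h4 le_rfl hm
        exact ⟨x, h5, h6⟩
      choose! Y hY1 hY2 using hcol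
      choose! X hX1 hX2 using hrow
      set S1 := (Icc 1 p.1).image fun i => (i, Y i) with hS1
      set S2 := (Icc 1 p.2).image fun j => (X j, j) with hS2
      have c1 : S1.card = p.1 := by
        rw [hS1, card_image_of_injective _ (fun a b h => congrArg Prod.fst h), Nat.card_Icc]
        omega
      have c2 : S2.card = p.2 := by
        rw [hS2, card_image_of_injective _ (fun a b h => congrArg Prod.snd h), Nat.card_Icc]
        omega
      have c3 : Disjoint S1 S2 := by
        rw [disjoint_left]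
        intro q hq1 hq2
        rw [hS1, mem_image] at hq1
        rw [hS2, mem_image] at hq2
        obtain ⟨i, hi, h1⟩ := hq1
        obtain ⟨j, hj, h2⟩ := hq2
        rw [mem_Icc] at hi hj
        have e1 := hY1 i hi.1 hi.2
        have f2 : q.2 = Y i := by rw [← h1]
        have f4 : q.2 = j := by rw [← h2]
        omega
      have c4 : S1 ∪ S2 ⊆ bd m n A := by
        intro q hq
        rw [mem_union, hS1, hS2, mem_image, mem_image] at hq
        rcases hq with ⟨i, hi, rfl⟩ | ⟨j, hj, rfl⟩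
        · rw [mem_Icc] at hi
          exact hY2 i hi.1 hi.2
        · rw [mem_Icc] at hj
          exact hX2 j hj.1 hj.2
      have c5 := card_union_of_disjoint c3
      have c6 := card_le_card c4
      omega

/-- there are ideals of every size -/
lemma exists_ideal (s : ℕ) (hs : s ≤ m * n) : ∃ A, IsIdeal m n A ∧ A.card = s := by
  classical
  induction s with
  | zero => exact ⟨∅, ⟨empty_subset _, fun p hp => absurd hp (notMem_empty _)⟩, card_empty⟩
  | succ s ih =>
    obtain ⟨A, hA, hcard⟩ := ih (by omega)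
    have hne : (cells m n \ A).Nonempty := by
      rw [← card_pos, card_sdiff_of_subset hA.1, card_cells]
      omega
    obtain ⟨p, hp, hmin⟩ := exists_min_image _ (fun p : ℕ × ℕ => p.1 + p.2) hne
    rw [mem_sdiff] at hp
    refine ⟨insert p A, ⟨insert_subset hp.1 hA.1, ?_⟩, by rw [card_insert_of_notMem hp.2, hcard]⟩
    intro q hq r hr h1 h2
    rcases mem_insert.1 hq with rfl | hq
    · by_cases hrA : r ∈ A
      · exact mem_insert_of_mem hrA
      · have := hmin r (mem_sdiff.2 ⟨hr, hrA⟩)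
        have e : r = q := by
          ext
          · omega
          · omega
        rw [e]
        exact mem_insert_self _ _
    · exact mem_insert_of_mem (hA.2 q hq r hr h1 h2)

/-- the lower bound for `ν` -/
theorem nu_ge (hmn : n ≤ m) {s : ℕ} (hs : s ≤ m * n) :
    ∃ b, nu m n s = s + b ∧ (n ≤ b ∨ 2 * s ≤ b * (b - 1) ∨ 2 * (m * n - s) ≤ b * (b + 1)) := by
  obtain ⟨A0, hA0, hc0⟩ := exists_ideal s hs
  have hne : {t : ℕ | ∃ A, IsIdeal m n A ∧ A.card = s ∧ (nbhd m n A).card = t}.Nonempty :=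
    ⟨_, A0, hA0, hc0, rfl⟩
  obtain ⟨A, hA, hc, ht⟩ := Nat.sInf_mem hne
  have h1 := card_nbhd hA
  refine ⟨(bd m n A).card, ?_, ?_⟩
  · unfold nu
    rw [← ht, h1, hc]
  · have := iso hmn hA
    rw [hc] at this
    exact this

end Q151.NU
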