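import Mathlib
import Pool.Agent.Q151.NU.Defs

/-!
# The potential `S` and the numerical inequality
-/

set_option autoImplicit false

namespace Q151.NU

open Finset

/-- triangular numbers -/
def T (d : ℕ) : ℕ := ∑ i ∈ range (d + 1), i

lemma T_zero : T 0 = 0 := by simp [T]

lemma T_succ (d : ℕ) : T (d + 1) = T d + (d + 1) := by
  unfold T
  rw [sum_range_succ]

lemma two_T (d : ℕ) : 2 * T d = d * (d + 1) := by
  induction d with
  | zero => simp [T_zero]
  | succ d ih =>
    rw [T_succ, mul_add, ih]
    ring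

lemma T_add (a b : ℕ) : T (a + b) = T a + T b + a * b := by
  have h1 := two_T (a + b)
  have h2 := two_T a
  have h3 := two_T b
  nlinarith

lemma T_mono {a b : ℕ} (h : a ≤ b) : T a ≤ T b := by
  obtain ⟨c, rfl⟩ := Nat.exists_eq_add_of_le h
  rw [T_add]
  omega

lemma le_T (d : ℕ) : d ≤ T d := by
  cases d with
  | zero => exact Nat.zero_le _
  | succ d => rw [T_succ]; omega

lemma exists_T (R : ℕ) : ∃ d, R ≤ T d := ⟨R, le_T R⟩

/-- the least `d` with `R ≤ T d` -/
noncomputable def dd (R : ℕ) : ℕ := Nat.find (exists_T R)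

lemma dd_spec (R : ℕ) : R ≤ T (dd R) := Nat.find_spec (exists_T R)

lemma dd_le {R d : ℕ} (h : R ≤ T d) : dd R ≤ d := Nat.find_min' _ h

lemma dd_pos {R : ℕ} (h : 0 < R) : 0 < dd R := by
  rcases Nat.eq_zero_or_pos (dd R) with h1 | h1
  · have := dd_spec R
    rw [h1, T_zero] at this
    omega
  · exact h1

lemma dd_eq {R d : ℕ} (h1 : T d < R) (h2 : R ≤ T (d + 1)) : dd R = d + 1 := by
  apply le_antisymm (dd_le h2)
  by_contra hcon
  push Not at hcon
  have h3 := dd_spec R
  have h4 := T_mono (show dd R ≤ d by omega)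
  omega

lemma dd_succ_le (R : ℕ) : dd (R + 1) ≤ dd R + 1 := by
  apply dd_le
  rw [T_succ]
  have := dd_spec R
  omega

/-- one step towards zero -/
noncomputable def rho (n R : ℕ) : ℕ := R - min n (dd R)

lemma rho_mono (n : ℕ) : Monotone (rho n) := by
  apply monotone_nat_of_le_succ
  intro R
  unfold rho
  have := dd_succ_le R
  omega

lemma rho_lt {n R : ℕ} (hn : 0 < n) (hR : 0 < R) : rho n R < R := by
  unfold rho
  have := dd_pos hR
  omega

/-- the total weight of the orbit -/
noncomputable def S (n R : ℕ) : ℕ :=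
  if h : 0 < n ∧ 0 < R then R + S n (rho n R) else 0
termination_by R
decreasing_by exact rho_lt h.1 h.2

lemma S_zero (n : ℕ) : S n 0 = 0 := by
  rw [S, dif_neg]
  omega

lemma S_pos {n R : ℕ} (hn : 0 < n) (hR : 0 < R) : S n R = R + S n (rho n R) := by
  rw [S, dif_pos ⟨hn, hR⟩]

lemma S_mono {n : ℕ} (hn : 0 < n) : ∀ R R', R ≤ R' → S n R ≤ S n R' := by
  intro R
  induction R using Nat.strong_induction_on with
  | _ R ih =>
    intro R' h
    rcases Nat.eq_zero_or_pos R with h0 | h0
    · rw [h0, S_zero]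
      exact Nat.zero_le _
    · rw [S_pos hn h0, S_pos (R := R') hn (by omega)]
      have := ih _ (rho_lt hn h0) _ (rho_mono n h)
      omega

lemma S_step {n : ℕ} (hn : 0 < n) {x x' e : ℕ} (h : x' + e ≤ x)
    (he : n ≤ e ∨ 2 * x ≤ e * (e + 1)) : x + S n x' ≤ S n x := by
  rcases Nat.eq_zero_or_pos x with h0 | h0
  · have : x' = 0 := by omega
    rw [h0, this, S_zero]
  · rw [S_pos hn h0]
    have h1 : min n (dd x) ≤ e := by
      rcases he with he | he
      · omega
      · have : x ≤ T e := by
          have := two_T e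
          omega
        have := dd_le this
        omega
    have h2 : x' ≤ rho n x := by
      unfold rho
      omega
    have := S_mono hn _ _ h2
    omega

lemma le_S {n : ℕ} (hn : 0 < n) (x : ℕ) : x ≤ S n x := by
  rcases Nat.eq_zero_or_pos x with h0 | h0
  · omega
  · rw [S_pos hn h0]
    omega

/-- the first block -/
lemma S_tri {n : ℕ} : ∀ d, d + 1 ≤ n → ∀ r, r ≤ d + 1 → S n (T d + r) = S n (T d) + T r := by
  intro d
  induction d with
  | zero =>
    intro hn r hr
    rw [T_zero]
    rcases Nat.eq_zero_or_pos r with h | h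
    · rw [h, S_zero, T_zero]
    · have : r = 1 := by omega
      subst this
      have h1 : dd (0 + 1) = 0 + 1 := dd_eq (by rw [T_zero]; omega) (by rw [T_succ, T_zero])
      rw [S_pos (by omega) (by omega), rho, h1, S_zero]
      have h2 : 0 + 1 - min n (0 + 1) = 0 := by omega
      rw [h2, S_zero, T_succ, T_zero]
  | succ d ih =>
    intro hn r hr
    rcases Nat.eq_zero_or_pos r with h | h
    · rw [h, T_zero]
      simp
    · have h1 : dd (T (d + 1) + r) = d + 1 + 1 := dd_eq (by omega) (by rw [T_succ (d + 1)]; omega)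
      rw [S_pos (by omega) (by omega), rho, h1]
      have h2 : T (d + 1) + r - min n (d + 1 + 1) = T d + (r - 1) := by
        rw [T_succ]
        omega
      rw [h2, ih (by omega) (r - 1) (by omega)]
      have h3 := ih (by omega) (d + 1) le_rfl
      rw [← T_succ] at h3
      have h4 : T r = T (r - 1) + r := by
        obtain ⟨k, rfl⟩ : ∃ k, r = k + 1 := ⟨r - 1, by omega⟩
        rw [T_succ]
        simp
      rw [h3, h4]
      omega

/-- the critical sizes -/
def AA (n k : ℕ) : ℕ := T (n - 1) + k * n

lemma AA_succ (n k : ℕ) : AA n (k + 1) = AA n k + n := by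
  unfold AA
  ring

lemma AA_one {n : ℕ} (hn : 0 < n) : AA n 1 = T n := by
  obtain ⟨k, rfl⟩ : ∃ k, n = k + 1 := ⟨n - 1, by omega⟩
  unfold AA
  rw [T_succ]
  simp

lemma S_AA_succ {n : ℕ} (hn : 0 < n) (k t : ℕ) :
    S n (AA n (k + 1) + t) = AA n (k + 1) + t + S n (AA n k + t) := by
  have hle : T n ≤ AA n (k + 1) := by
    rw [← AA_one hn]
    unfold AA
    have : 1 * n ≤ (k + 1) * n := Nat.mul_le_mul_right _ (by omega)
    omega
  have hpos : 0 < T n := by
    have := le_T n
    omega
  rw [S_pos hn (by omega)]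
  have h1 : n ≤ dd (AA n (k + 1) + t) := by
    by_contra hcon
    push Not at hcon
    have h2 := dd_spec (AA n (k + 1) + t)
    have h3 := T_mono (show dd (AA n (k + 1) + t) ≤ n - 1 by omega)
    have h4 : T n = T (n - 1) + n := by
      obtain ⟨j, rfl⟩ : ∃ j, n = j + 1 := ⟨n - 1, by omega⟩
      rw [T_succ]
      simp
    omega
  have h2 : rho n (AA n (k + 1) + t) = AA n k + t := by
    unfold rho
    rw [AA_succ]
    rw [AA_succ] at h1
    omega
  rw [h2]

lemma S_AA {n : ℕ} (hn : 0 < n) (k : ℕ) : ∀ t, t ≤ n → S n (AA n k + t) = S n (AA n k) + k * t + T t := by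
  induction k with
  | zero =>
    intro t ht
    have h1 : AA n 0 = T (n - 1) := by
      unfold AA
      omega
    rw [h1, S_tri (n - 1) (by omega) t (by omega)]
    omega
  | succ k ih =>
    intro t ht
    rw [S_AA_succ hn, ih t ht]
    have := S_AA_succ hn k 0
    rw [Nat.add_zero, Nat.add_zero] at this
    rw [this]
    ring

/-- the difference below a critical size -/
lemma S_AA_sub {n : ℕ} (hn : 0 < n) (k t : ℕ) (ht : t + 1 ≤ n) (htA : t ≤ AA n k) :
    S n (AA n k - t) + k * t + T t ≤ S n (AA n k) := by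
  rcases Nat.eq_zero_or_pos t with h0 | h0
  · rw [h0, T_zero]
    simp
  cases k with
  | zero =>
    obtain ⟨j, hj⟩ : ∃ j, n = j + 2 := ⟨n - 2, by omega⟩
    have h1 : AA n 0 = T (j + 1) := by
      unfold AA
      rw [hj]
      simp
    have h2 : AA n 0 - t = T j + (j + 1 - t) := by
      rw [h1, T_succ]
      omega
    rw [h2, S_tri j (by omega) (j + 1 - t) (by omega), h1, T_succ,
      S_tri j (by omega) (j + 1) le_rfl]
    have h3 := T_add (j + 1 - t) t
    have h4 : j + 1 - t + t = j + 1 := by omega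
    rw [h4] at h3
    rw [h3]
    have := Nat.zero_le ((j + 1 - t) * t)
    omega
  | succ k =>
    have h2 : AA n (k + 1) - t = AA n k + (n - t) := by
      rw [AA_succ]
      omega
    have h5 : S n (AA n (k + 1)) = S n (AA n k) + k * n + T n := by
      rw [AA_succ]
      exact S_AA hn k n le_rfl
    rw [h2, S_AA hn k (n - t) (by omega), h5]
    have h3 := T_add (n - t) t
    have h4 : n - t + t = n := by omega
    rw [h4] at h3
    have h6 : k * n = k * (n - t) + k * t := by
      rw [← Nat.mul_add, h4]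
    have h7 : t ≤ (n - t) * t := Nat.le_mul_of_pos_left t (by omega)
    rw [h3, h6]
    have h8 : (k + 1) * t = k * t + t := by ring
    omega

/-- the numerical inequality, `m - n` even -/
lemma num_even {n : ℕ} (hn : 0 < n) (q x y : ℕ) (hx : 2 * x ≤ 2 * AA n q + n)
    (hxy : x + y ≤ 2 * AA n q) (hle : y ≤ x) : S n x + S n y ≤ 2 * S n (AA n q) := by
  rcases Nat.lt_or_ge (AA n q) x with h | h
  · obtain ⟨t, rfl⟩ := Nat.exists_eq_add_of_le h.le
    have ht : 2 * t ≤ n := by omega
    have h1 := S_AA hn q t (by omega)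
    have h2 := S_AA_sub hn q t (by omega) (by omega)
    have h3 := S_mono hn y (AA n q - t) (by omega)
    omega
  · have h1 := S_mono hn x _ h
    have h2 := S_mono hn y (AA n q) (by omega)
    omega

/-- the numerical inequality, `m - n` odd -/
lemma num_odd {n : ℕ} (hn : 0 < n) (q x y : ℕ) (hx : x ≤ AA n (q + 1)) (hy : y ≤ AA n (q + 1))
    (hxy : x + y ≤ AA n q + AA n (q + 1)) :
    S n x + S n y ≤ S n (AA n q) + S n (AA n (q + 1)) := by
  rcases Nat.lt_or_ge (AA n q) x with h | h
  · rcases Nat.lt_or_ge (AA n q) y with h' | h'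
    · obtain ⟨t, rfl⟩ := Nat.exists_eq_add_of_le h.le
      rw [AA_succ] at hx hy hxy
      have h1 := S_AA hn q t (by omega)
      have h2 := S_mono hn y (AA n q + (n - t)) (by omega)
      have h3 := S_AA hn q (n - t) (by omega)
      have h4 : S n (AA n (q + 1)) = S n (AA n q) + q * n + T n := by
        rw [AA_succ]
        exact S_AA hn q n le_rfl
      have h5 := T_add (n - t) t
      have h6 : n - t + t = n := by omega
      rw [h6] at h5
      have h7 : q * n = q * (n - t) + q * t := by
        rw [← Nat.mul_add, h6]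
      have := Nat.zero_le ((n - t) * t)
      omega
    · have h1 := S_mono hn x _ hx
      have h2 := S_mono hn y _ h'
      omega
  · have h1 := S_mono hn x _ h
    have h2 := S_mono hn y _ hy
    omega

end Q151.NU
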