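import Mathlib
import Pool.Agent.Q151.NU.Iso
import Pool.Agent.Q151.NU.Num

/-!
# The antidiagonal chain is the slowest `ν`-chain
-/

set_option autoImplicit false

namespace Q151.NU

open Finset

/-- the number of cells with `i + j ≤ l + 1` -/
def bb (m n l : ℕ) : ℕ := ((cells m n).filter fun p => p.1 + p.2 ≤ l + 1).card

lemma anti_eq (m n l : ℕ) : anti m n l = bb m n (l + 1) := rfl

lemma bb_mono (m n : ℕ) : Monotone (bb m n) := by
  intro a b h
  unfold bb
  apply card_le_card
  intro p hp
  rw [mem_filter] at hp ⊢
  exact ⟨hp.1, by omega⟩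

lemma bb_zero (m n : ℕ) : bb m n 0 = 0 := by
  unfold bb
  rw [card_eq_zero, filter_eq_empty_iff]
  intro p hp
  have := mem_cells.1 hp
  omega

lemma bb_succ {m n l : ℕ} (hl : l < m) : bb m n (l + 1) = bb m n l + min n (l + 1) := by
  classical
  unfold bb
  have h1 : ((cells m n).filter fun p => p.1 + p.2 ≤ l + 1 + 1) =
      ((cells m n).filter fun p => p.1 + p.2 ≤ l + 1) ∪
        ((Icc 1 (min n (l + 1))).image fun j => (l + 2 - j, j)) := by
    ext p
    rw [mem_union, mem_filter, mem_filter, mem_image, mem_cells]
    constructor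
    · rintro ⟨⟨⟨h1, h2⟩, h3, h4⟩, h5⟩
      rcases Nat.lt_or_ge (p.1 + p.2) (l + 2) with h6 | h6
      · left
        exact ⟨⟨⟨h1, h2⟩, h3, h4⟩, by omega⟩
      · right
        refine ⟨p.2, mem_Icc.2 ⟨h3, by omega⟩, ?_⟩
        ext
        · simp only
          omega
        · rfl
    · rintro (⟨h1, h2⟩ | ⟨j, hj, rfl⟩)
      · exact ⟨h1, by omega⟩
      · rw [mem_Icc] at hj
        simp only
        omega
  rw [h1, card_union_of_disjoint]
  · congr 1
    rw [card_image_of_injective _ (fun a b h => congrArg Prod.snd h), Nat.card_Icc]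
    omega
  · rw [disjoint_left]
    intro p hp hp'
    rw [mem_filter] at hp
    rw [mem_image] at hp'
    obtain ⟨j, hj, rfl⟩ := hp'
    rw [mem_Icc] at hj
    have := hp.2
    simp only at this
    omega

lemma bb_compl {m n l : ℕ} (hl : l ≤ m + n - 1) (hm : 1 ≤ m) (hn : 1 ≤ n) :
    m * n - bb m n l = bb m n (m + n - 1 - l) := by
  classical
  unfold bb
  have h1 : (cells m n).card = m * n := card_cells m n
  have h2 := card_filter_add_card_filter_not (s := cells m n) (fun p => p.1 + p.2 ≤ l + 1)
  have h3 : ((cells m n).filter fun p => ¬ p.1 + p.2 ≤ l + 1).card =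
      ((cells m n).filter fun p => p.1 + p.2 ≤ m + n - 1 - l + 1).card := by
    apply card_bij' (fun p _ => (m + 1 - p.1, n + 1 - p.2)) (fun p _ => (m + 1 - p.1, n + 1 - p.2))
    · intro p hp
      rw [mem_filter, mem_cells] at hp ⊢
      simp only
      omega
    · intro p hp
      rw [mem_filter, mem_cells] at hp ⊢
      simp only
      omega
    · intro p hp
      rw [mem_filter, mem_cells] at hp
      ext
      · simp only
        omega
      · simp only
        omega
    · intro p hp
      rw [mem_filter, mem_cells] at hp
      ext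
      · simp only
        omega
      · simp only
        omega
  omega

lemma bb_tri {m n l : ℕ} (h1 : l ≤ n) (h2 : l ≤ m) : bb m n l = T l := by
  induction l with
  | zero => rw [bb_zero, T_zero]
  | succ l ih =>
    rw [bb_succ (by omega), ih (by omega) (by omega), T_succ]
    omega

lemma bb_AA {m n k : ℕ} (hmn : n ≤ m) (hn : 1 ≤ n) (h : n - 1 + k ≤ m) :
    bb m n (n - 1 + k) = AA n k := by
  induction k with
  | zero =>
    rw [Nat.add_zero, bb_tri (by omega) (by omega)]
    unfold AA
    omega
  | succ k ih =>
    have h1 := bb_succ (n := n) (show n - 1 + k < m by omega)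
    rw [← Nat.add_assoc, h1, ih (by omega), AA_succ]
    omega

/-- the sum of the antidiagonal sizes -/
lemma sum_bb {m n : ℕ} (hmn : n ≤ m) (hn : 1 ≤ n) (l : ℕ) (hl : l ≤ m) :
    ∑ i ∈ range (l + 1), bb m n i = S n (bb m n l) := by
  induction l with
  | zero =>
    rw [sum_range_one, bb_zero, S_zero]
  | succ l ih =>
    rw [sum_range_succ, ih (by omega)]
    have h1 := bb_succ (n := n) (show l < m by omega)
    rw [S_pos (R := bb m n (l + 1)) hn (by omega)]
    have h2 : rho n (bb m n (l + 1)) = bb m n l := by
      unfold rho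
      rcases Nat.lt_or_ge l n with h3 | h3
      · have h4 : bb m n (l + 1) = T (l + 1) := bb_tri (by omega) hl
        have h5 : bb m n l = T l := bb_tri (by omega) (by omega)
        have h6 : dd (T (l + 1)) = l + 1 := dd_eq (by rw [T_succ]; omega) le_rfl
        rw [h4, h5, h6, T_succ]
        omega
      · have h4 : T n ≤ bb m n l := by
          have := bb_mono m n h3
          rwa [bb_tri le_rfl hmn] at this
        have h5 : n ≤ dd (bb m n (l + 1)) := by
          by_contra hcon
          push Not at hcon
          have h6 := dd_spec (bb m n (l + 1))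
          have h7 := T_mono (show dd (bb m n (l + 1)) ≤ n by omega)
          omega
        omega
    rw [h2]
    omega

/-- lower bound for `D(m, n)` -/
lemma DD_ge {m n : ℕ} (hmn : n ≤ m) (hn : 1 ≤ n) :
    ∑ l ∈ range (m + n), bb m n (min l (m + n - 1 - l)) ≤ DD m n := by
  unfold DD weight
  have h1 : m + n - 2 + 1 + 1 = m + n := by omega
  have h2 : m + n = (m + n - 2 + 1) + 1 := by omega
  rw [h2, sum_range_succ']
  have h3 : bb m n (min 0 (m + n - 2 + 1 + 1 - 1 - 0)) = 0 := by
    rw [Nat.zero_min, bb_zero]
  rw [h3, Nat.add_zero]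
  apply sum_le_sum
  intro l hl
  rw [mem_range] at hl
  rw [anti_eq, le_min_iff]
  constructor
  · exact bb_mono m n (min_le_left _ _)
  · rw [bb_compl (by omega) (by omega) hn]
    apply bb_mono
    refine (min_le_right _ _).trans ?_
    omega

lemma DD_even {n q : ℕ} (hn : 1 ≤ n) : 2 * S n (AA n q) ≤ DD (n + 2 * q) n := by
  refine le_trans (le_of_eq ?_) (DD_ge (by omega) hn)
  have h1 : n + 2 * q + n = (n - 1 + q + 1) + (n - 1 + q + 1) := by omega
  have h2 : ∀ f : ℕ → ℕ, ∑ l ∈ range ((n - 1 + q + 1) + (n - 1 + q + 1)), f l =
      ∑ l ∈ range (n - 1 + q + 1), f l + ∑ l ∈ range (n - 1 + q + 1),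
        f ((n - 1 + q + 1) + (n - 1 + q + 1 - 1 - l)) := by
    intro f
    rw [sum_range_add]
    congr 1
    exact (sum_range_reflect (fun x => f (n - 1 + q + 1 + x)) (n - 1 + q + 1)).symm
  rw [h1, h2]
  have h3 := sum_bb (m := n + 2 * q) (n := n) (by omega) hn (n - 1 + q) (by omega)
  rw [bb_AA (by omega) hn (by omega)] at h3
  rw [two_mul, ← h3]
  congr 1
  · apply sum_congr rfl
    intro l hl
    rw [mem_range] at hl
    congr 1
    omega
  · apply sum_congr rfl
    intro l hl
    rw [mem_range] at hl
    congr 1
    omega

lemma DD_odd {n q : ℕ} (hn : 1 ≤ n) :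
    S n (AA n q) + S n (AA n (q + 1)) ≤ DD (n + (2 * q + 1)) n := by
  refine le_trans (le_of_eq ?_) (DD_ge (by omega) hn)
  have h1 : n + (2 * q + 1) + n = (n - 1 + (q + 1) + 1) + (n - 1 + q + 1) := by omega
  have h2 : ∀ f : ℕ → ℕ, ∑ l ∈ range ((n - 1 + (q + 1) + 1) + (n - 1 + q + 1)), f l =
      ∑ l ∈ range (n - 1 + (q + 1) + 1), f l + ∑ l ∈ range (n - 1 + q + 1),
        f ((n - 1 + (q + 1) + 1) + (n - 1 + q + 1 - 1 - l)) := by
    intro f
    rw [sum_range_add]
    congr 1
    exact (sum_range_reflect (fun x => f (n - 1 + (q + 1) + 1 + x)) (n - 1 + q + 1)).symm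
  rw [h1, h2]
  have h3 := sum_bb (m := n + (2 * q + 1)) (n := n) (by omega) hn (n - 1 + q) (by omega)
  rw [bb_AA (by omega) hn (by omega)] at h3
  have h4 := sum_bb (m := n + (2 * q + 1)) (n := n) (by omega) hn (n - 1 + (q + 1)) (by omega)
  rw [bb_AA (by omega) hn (by omega)] at h4
  rw [← h3, ← h4, add_comm]
  congr 1
  · apply sum_congr rfl
    intro l hl
    rw [mem_range] at hl
    congr 1
    omega
  · apply sum_congr rfl
    intro l hl
    rw [mem_range] at hl
    congr 1
    omega

/-- the numerical inequality -/
lemma num_main {m n : ℕ} (hmn : n ≤ m) (hn : 1 ≤ n) (x y : ℕ) (hx : 2 * x ≤ m * n)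
    (hy : 2 * y ≤ m * n) (hxy : x + y + n ≤ m * n) : S n x + S n y ≤ DD m n := by
  have h0 : n * n = 2 * T (n - 1) + n := by
    have := two_T (n - 1)
    obtain ⟨j, rfl⟩ : ∃ j, n = j + 1 := ⟨n - 1, by omega⟩
    simp only [Nat.add_sub_cancel] at this ⊢
    rw [this]
    ring
  obtain ⟨d, rfl⟩ := Nat.exists_eq_add_of_le hmn
  rcases Nat.even_or_odd' d with ⟨q, rfl | rfl⟩
  · have hN : (n + 2 * q) * n = 2 * AA n q + n := by
      unfold AA
      have : (n + 2 * q) * n = n * n + 2 * (q * n) := by ring
      rw [this, h0]
      ring
    refine le_trans ?_ (DD_even hn)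
    rw [hN] at hx hy hxy
    rcases Nat.le_total y x with h | h
    · exact num_even hn q x y hx (by omega) h
    · rw [add_comm]
      exact num_even hn q y x hy (by omega) h
  · have hN : (n + (2 * q + 1)) * n = 2 * AA n (q + 1) := by
      unfold AA
      have : (n + (2 * q + 1)) * n = n * n + 2 * (q * n) + n := by ring
      rw [this, h0]
      ring
    refine le_trans ?_ (DD_odd hn)
    rw [hN] at hx hy hxy
    rw [AA_succ] at hxy
    exact num_odd hn q x y (by omega) (by omega) (by rw [AA_succ]; omega)

/-- The slowest-chain theorem. -/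
theorem slowest {m n : ℕ} (hmn : n ≤ m) (hn : 1 ≤ n) (L : ℕ) (c : ℕ → ℕ)
    (hc : IsNuChain m n L c) : weight m n L c ≤ DD m n := by
  have hnn : n * n ≤ m * n := Nat.mul_le_mul_right _ hmn
  rcases Nat.eq_or_lt_of_le (show 1 ≤ m by omega) with hm | hm
  · -- the grid with one cell
    have : weight m n L c = 0 := by
      unfold weight
      apply sum_eq_zero
      intro l hl
      rw [mem_range] at hl
      have := hc.1 l (by omega)
      have h1 : m * n ≤ 1 := by
        have : n ≤ 1 := by omega
        calc m * n ≤ 1 * 1 := Nat.mul_le_mul (by omega) this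
          _ = 1 := rfl
      omega
    omega
  have h2n : 2 * n ≤ m * n := Nat.mul_le_mul_right _ hm
  have key : ∀ k ≤ L, (m * n < 2 * c (L - k) →
      ∑ l ∈ range (k + 1), min (c (L - l)) (m * n - c (L - l)) ≤ S n (m * n - c (L - k))) ∧
      (2 * c (L - k) ≤ m * n →
        ∑ l ∈ range (k + 1), min (c (L - l)) (m * n - c (L - l)) + S n (c (L - k)) ≤
          DD m n + c (L - k)) := by
    intro k
    induction k with
    | zero =>
      intro _
      constructor
      · intro h
        rw [sum_range_one]
        exact (min_le_right _ _).trans (le_S hn _)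
      · intro h
        rw [sum_range_one]
        have h1 := num_main hmn hn (c (L - 0)) 0 h (by omega) (by omega)
        rw [S_zero] at h1
        have h2 : min (c (L - 0)) (m * n - c (L - 0)) ≤ c (L - 0) := min_le_left _ _
        omega
    | succ k ih =>
      intro hk
      obtain ⟨ih1, ih2⟩ := ih (by omega)
      have hidx : L - (k + 1) + 1 = L - k := by omega
      have hcl := hc.1 (L - (k + 1)) (by omega)
      have hcl' := hc.1 (L - k) (by omega)
      obtain ⟨b, hb1, hb2⟩ := nu_ge hmn hcl
      have hstep := hc.2 (L - (k + 1)) (by omega)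
      rw [hidx, hb1] at hstep
      set x := c (L - (k + 1)) with hx
      set z := c (L - k) with hz
      obtain ⟨e, he⟩ := Nat.exists_eq_add_of_le (show x ≤ z by omega)
      have hbe : b ≤ e := by omega
      have hm1 : b * (b - 1) ≤ e * (e - 1) := Nat.mul_le_mul hbe (by omega)
      have hm2 : b * (b + 1) ≤ e * (e + 1) := Nat.mul_le_mul hbe (by omega)
      have hm3 : e < n → e * (e + 1) ≤ n * (n - 1) := fun h => by
        rw [Nat.mul_comm n]
        exact Nat.mul_le_mul (by omega) (by omega)
      have hm4 : n * (n - 1) < n * n := Nat.mul_lt_mul_of_pos_left (by omega) hn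
      have hm5 : e * (e + 1) = e * (e - 1) + 2 * e := by
        cases e with
        | zero => rfl
        | succ e =>
          simp only [Nat.add_sub_cancel]
          ring
      rw [sum_range_succ]
      constructor
      · intro h
        have h1 := ih1 (by omega)
        have h2 : min x (m * n - x) ≤ m * n - x := min_le_right _ _
        have h3 := S_step hn (x := m * n - x) (x' := m * n - z) (e := e) (by omega) (by
          rcases hb2 with h4 | h4 | h4
          · left
            omega
          · rcases Nat.lt_or_ge e n with h5 | h5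
            · have := hm3 h5
              omega
            · left
              exact h5
          · right
            omega)
        omega
      · intro h
        have h2 : min x (m * n - x) ≤ x := min_le_left _ _
        rcases Nat.lt_or_ge (m * n) (2 * z) with h6 | h6
        · have h1 := ih1 h6
          -- the crossing step
          have h7 : x + (m * n - z) + n ≤ m * n := by
            rcases Nat.lt_or_ge e n with h5 | h5
            · have h8 := hm3 h5
              rcases hb2 with h4 | h4 | h4
              · omega
              · -- `2 x ≤ e (e - 1)`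
                have h9 : e * (e - 1) ≤ (n - 1) * (n - 2) := Nat.mul_le_mul (by omega) (by omega)
                have h10 : (n - 1) * (n - 2) + 2 * n ≤ n * n + 1 := by
                  obtain ⟨j, rfl⟩ : ∃ j, n = j + 2 := ⟨n - 2, by omega⟩
                  simp only [Nat.add_sub_cancel, show j + 2 - 1 = j + 1 by omega]
                  nlinarith
                omega
              · omega
            · omega
          have h8 := num_main hmn hn x (m * n - z) h (by omega) h7
          omega
        · have h1 := ih2 h6
          have h3 := S_step hn (x := z) (x' := x) (e := e) (by omega) (by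
            rcases hb2 with h4 | h4 | h4
            · left
              omega
            · right
              omega
            · rcases Nat.lt_or_ge e n with h5 | h5
              · have := hm3 h5
                omega
              · left
                exact h5)
          omega
  have hw : weight m n L c = ∑ l ∈ range (L + 1), min (c (L - l)) (m * n - c (L - l)) := by
    unfold weight
    exact (sum_range_reflect (fun l => min (c l) (m * n - c l)) (L + 1)).symm
  obtain ⟨h1, h2⟩ := key L le_rfl
  rw [← hw] at h1 h2
  rw [Nat.sub_self] at h1 h2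
  have h3 := hc.1 0 (Nat.zero_le _)
  rcases Nat.lt_or_ge (m * n) (2 * c 0) with h4 | h4
  · have h5 := num_main hmn hn 0 (m * n - c 0) (by omega) (by omega) (by
      rcases Nat.lt_or_ge (c 0) n with h6 | h6
      · omega
      · omega)
    rw [S_zero] at h5
    have := h1 h4
    omega
  · have h5 := h2 h4
    have h6 := le_S hn (c 0)
    omega

end Q151.NU
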